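import Pool.Agent.X111.LD.Fin

set_option autoImplicit false

/-! The statement S_DENSE: Laplace transforms converge off a dense set of parameters by convexity. -/

namespace Pool.Agent.X111.LD

open MeasureTheory Filter Topology ProbabilityTheory
open Pool.Agent.Y753.SHL

/-- convexity of the exponential along a line -/
lemma cvx {a c u x y : ℝ} (hac : a < c) (hau : a ≤ u) (huc : u ≤ c) :
    Real.exp (x + u * y) ≤ (c - u) / (c - a) * Real.exp (x + a * y) + (u - a) / (c - a) * Real.exp (x + c * y) := by
  have h0 : 0 < c - a := by linarith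
  have h := convexOn_exp.2 (Set.mem_univ (x + a * y)) (Set.mem_univ (x + c * y))
    (show 0 ≤ (c - u) / (c - a) by exact div_nonneg (by linarith) h0.le)
    (show 0 ≤ (u - a) / (c - a) by exact div_nonneg (by linarith) h0.le)
    (show (c - u) / (c - a) + (u - a) / (c - a) = 1 by field_simp; ring)
  simp only [smul_eq_mul] at h
  have e : (c - u) / (c - a) * (x + a * y) + (u - a) / (c - a) * (x + c * y) = x + u * y := by
    field_simp; ring
  rw [e] at h
  exact h

/-- convergence of Laplace transforms extends from dense parameters -/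
lemma conv1 {X : Type*} [MeasurableSpace X] {μ : ℝ → Measure X}
    {f g : X → ℝ} {Φ : ℝ → ℝ} {A B s : ℝ} {D : Set ℝ} (hf : Measurable f) (hg : Measurable g) (hΦ : Continuous Φ)
    (hD : Dense D) (h1 : A < s) (h2 : s < B)
    (h : ∀ u ∈ D, A < u → u < B → (∀ᶠ T in atTop, Integrable (fun y => Real.exp (f y + u * g y)) (μ T)) ∧
      Tendsto (fun T => ∫ y, Real.exp (f y + u * g y) ∂(μ T)) atTop (𝓝 (Φ u))) :
    (∀ᶠ T in atTop, Integrable (fun y => Real.exp (f y + s * g y)) (μ T)) ∧
      Tendsto (fun T => ∫ y, Real.exp (f y + s * g y) ∂(μ T)) atTop (𝓝 (Φ s)) := by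
  obtain ⟨a, haD, ha1, ha2⟩ : ∃ a ∈ D, A < a ∧ a < s := by
    obtain ⟨a, h3, h4⟩ := hD.exists_mem_open isOpen_Ioo (Set.nonempty_Ioo.mpr h1)
    exact ⟨a, h3, h4.1, h4.2⟩
  obtain ⟨c, hcD, hc1, hc2⟩ : ∃ c ∈ D, s < c ∧ c < B := by
    obtain ⟨a, h3, h4⟩ := hD.exists_mem_open isOpen_Ioo (Set.nonempty_Ioo.mpr h2)
    exact ⟨a, h3, h4.1, h4.2⟩
  have hint : ∀ᶠ T in atTop, Integrable (fun y => Real.exp (f y + s * g y)) (μ T) := by
    filter_upwards [(h a haD ha1 (by linarith)).1, (h c hcD (by linarith) hc2).1] with T h3 h4
    refine ((h3.const_mul ((c - s) / (c - a))).add (h4.const_mul ((s - a) / (c - a)))).mono'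
      (by fun_prop) (Eventually.of_forall fun y => ?_)
    rw [Real.norm_of_nonneg (Real.exp_pos _).le]
    exact cvx (by linarith) ha2.le hc1.le
  refine ⟨hint, ?_⟩
  rw [Metric.tendsto_nhds]
  intro ε hε
  -- the upper bound
  have up : ∀ᶠ T in atTop, ∫ y, Real.exp (f y + s * g y) ∂(μ T) < Φ s + ε := by
    have hc0 : Tendsto Φ (𝓝 s) (𝓝 (Φ s)) := hΦ.tendsto s
    obtain ⟨r, hr, hr2⟩ := Metric.eventually_nhds_iff.mp (hc0.eventually (gt_mem_nhds (show Φ s < Φ s + ε / 2 by linarith)))
    obtain ⟨a', ha'D, ha'1, ha'2⟩ : ∃ a ∈ D, (max A (s - r) < a) ∧ a < s := by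
      obtain ⟨a, h3, h4⟩ := hD.exists_mem_open isOpen_Ioo (Set.nonempty_Ioo.mpr (show max A (s - r) < s from
        max_lt h1 (by linarith)))
      exact ⟨a, h3, h4.1, h4.2⟩
    obtain ⟨c', hc'D, hc'1, hc'2⟩ : ∃ c ∈ D, s < c ∧ c < min B (s + r) := by
      obtain ⟨a, h3, h4⟩ := hD.exists_mem_open isOpen_Ioo (Set.nonempty_Ioo.mpr (show s < min B (s + r) from
        lt_min h2 (by linarith)))
      exact ⟨a, h3, h4.1, h4.2⟩
    have b1 : A < a' := lt_of_le_of_lt (le_max_left _ _) ha'1
    have b2 : s - r < a' := lt_of_le_of_lt (le_max_right _ _) ha'1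
    have b3 : c' < B := lt_of_lt_of_le hc'2 (min_le_left _ _)
    have b4 : c' < s + r := lt_of_lt_of_le hc'2 (min_le_right _ _)
    have q1 := hr2 (y := a') (by rw [Real.dist_eq, abs_lt]; constructor <;> linarith)
    have q2 := hr2 (y := c') (by rw [Real.dist_eq, abs_lt]; constructor <;> linarith)
    obtain ⟨i1, t1⟩ := h a' ha'D b1 (by linarith)
    obtain ⟨i2, t2⟩ := h c' hc'D (by linarith) b3
    have hw1 : 0 < (c' - s) / (c' - a') := div_pos (by linarith) (by linarith)
    have hw2 : 0 < (s - a') / (c' - a') := div_pos (by linarith) (by linarith)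
    have hw3 : (c' - s) / (c' - a') + (s - a') / (c' - a') = 1 := by
      have : c' - a' ≠ 0 := by
        have : 0 < c' - a' := by linarith
        exact this.ne'
      field_simp; ring
    have t3 := (t1.const_mul ((c' - s) / (c' - a'))).add (t2.const_mul ((s - a') / (c' - a')))
    have q3 : (c' - s) / (c' - a') * Φ a' + (s - a') / (c' - a') * Φ c' < Φ s + ε := by
      have r1 := mul_lt_mul_of_pos_left q1 hw1
      have r2 := mul_lt_mul_of_pos_left q2 hw2
      have r3 : (c' - s) / (c' - a') * (Φ s + ε / 2) + (s - a') / (c' - a') * (Φ s + ε / 2) = Φ s + ε / 2 := by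
        rw [← add_mul, hw3, one_mul]
      linarith
    filter_upwards [t3.eventually (gt_mem_nhds q3), i1, i2, hint] with T h3 h4 h5 h6
    refine lt_of_le_of_lt ?_ h3
    rw [← integral_const_mul, ← integral_const_mul, ← integral_add (h4.const_mul _) (h5.const_mul _)]
    exact integral_mono h6 ((h4.const_mul _).add (h5.const_mul _)) fun y => cvx (by linarith) ha'2.le hc'1.le
  -- the lower bound
  have low : ∀ᶠ T in atTop, Φ s - ε < ∫ y, Real.exp (f y + s * g y) ∂(μ T) := by
    -- choose u in (a, s) close to s
    have hlim : Tendsto (fun u : ℝ => ((s - a) * Φ u - (s - u) * Φ a) / (u - a)) (𝓝 s) (𝓝 (((s - a) * Φ s - (s - s) * Φ a) / (s - a))) := by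
      refine Tendsto.div ?_ ?_ (by linarith)
      · exact ((hΦ.tendsto s).const_mul _).sub ((tendsto_const_nhds.sub tendsto_id).mul_const _)
      · exact tendsto_id.sub_const a
    have e0 : ((s - a) * Φ s - (s - s) * Φ a) / (s - a) = Φ s := by
      have : s - a ≠ 0 := by
        have : 0 < s - a := by linarith
        exact this.ne'
      field_simp; ring
    rw [e0] at hlim
    obtain ⟨r, hr, hr2⟩ := Metric.eventually_nhds_iff.mp (hlim.eventually (lt_mem_nhds (show Φ s - ε < Φ s by linarith)))
    obtain ⟨u, huD, hu1, hu2⟩ : ∃ u ∈ D, (max a (s - r) < u) ∧ u < s := by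
      obtain ⟨a, h3, h4⟩ := hD.exists_mem_open isOpen_Ioo (Set.nonempty_Ioo.mpr (show max a (s - r) < s from
        max_lt ha2 (by linarith)))
      exact ⟨a, h3, h4.1, h4.2⟩
    have b1 : a < u := lt_of_le_of_lt (le_max_left _ _) hu1
    have b2 : s - r < u := lt_of_le_of_lt (le_max_right _ _) hu1
    have q1 := hr2 (y := u) (by rw [Real.dist_eq, abs_lt]; constructor <;> linarith)
    obtain ⟨i1, t1⟩ := h a haD ha1 (by linarith)
    obtain ⟨i2, t2⟩ := h u huD (by linarith) (by linarith)
    have t3 := ((t2.const_mul (s - a)).sub (t1.const_mul (s - u))).div_const (u - a)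
    filter_upwards [t3.eventually (lt_mem_nhds q1), i1, i2, hint] with T h3 h4 h5 h6
    refine lt_of_lt_of_le h3 ?_
    have hua : 0 < u - a := by linarith
    rw [div_le_iff₀ hua, ← integral_const_mul, ← integral_const_mul, mul_comm, ← integral_const_mul,
      ← integral_sub (h5.const_mul _) (h4.const_mul _)]
    refine integral_mono ((h5.const_mul _).sub (h4.const_mul _)) (h6.const_mul _) fun y => ?_
    show (s - a) * Real.exp (f y + u * g y) - (s - u) * Real.exp (f y + a * g y) ≤ (u - a) * Real.exp (f y + s * g y)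
    have h7 := cvx (a := a) (c := s) (u := u) (x := f y) (y := g y) (by linarith) b1.le hu2.le
    have hsa : 0 < s - a := by linarith
    have h8 := mul_le_mul_of_nonneg_left h7 hsa.le
    have e1 : (s - a) * ((s - u) / (s - a) * Real.exp (f y + a * g y) + (u - a) / (s - a) * Real.exp (f y + s * g y)) =
        (s - u) * Real.exp (f y + a * g y) + (u - a) * Real.exp (f y + s * g y) := by
      field_simp
    rw [e1] at h8
    linarith
  filter_upwards [up, low] with T h3 h4
  rw [Real.dist_eq, abs_lt]
  constructor <;> linarith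

variable {n : ℕ}

lemma lf_update (θ : Fin n → ℝ) (i : Fin n) (u : ℝ) (y : Fin n → ℝ) :
    lf (Function.update θ i u) y = lf (Function.update θ i 0) y + u * y i := by
  classical
  unfold lf
  rw [← Finset.add_sum_erase _ _ (Finset.mem_univ i), ← Finset.add_sum_erase (a := i) _ (fun j => Function.update θ i 0 j * y j) (Finset.mem_univ i)]
  simp only [Function.update_self, zero_mul, zero_add]
  rw [add_comm]
  congr 1
  refine Finset.sum_congr rfl fun j hj => ?_
  rw [Function.update_of_ne (Finset.ne_of_mem_erase hj), Function.update_of_ne (Finset.ne_of_mem_erase hj)]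

lemma qf_cont (C : Fin n → Fin n → ℝ) : Continuous fun c : Fin n → ℝ => qf C c := by
  unfold qf
  fun_prop

lemma lf_cont' (m : Fin n → ℝ) : Continuous fun c : Fin n → ℝ => lf c m := by
  unfold lf
  fun_prop

/-- statement S_DENSE -/
theorem dense : S_DENSE := by
  classical
  intro n μ m C b hb hq
  have key : ∀ S : Finset (Fin n), ∀ θ : Fin n → ℝ, (∀ j, 0 < θ j) → ∑ j, θ j < b →
      (∀ j ∉ S, ∃ q : ℚ, θ j = b * q) → Lap μ m C θ := by
    intro S
    induction S using Finset.induction_on with
    | empty =>
      intro θ h1 h2 h3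
      choose q hq' using fun j => h3 j (Finset.notMem_empty j)
      have e : θ = fun j => b * (q j : ℝ) := funext hq'
      rw [e]
      refine hq q (fun j => ?_) ?_
      · have := h1 j
        rw [hq' j] at this
        exact_mod_cast (pos_iff_pos_of_mul_pos this).mp hb
      · have e2 : ∑ j, θ j = b * ∑ j, (q j : ℝ) := by
          rw [Finset.mul_sum]
          exact Finset.sum_congr rfl fun j _ => hq' j
        rw [e2] at h2
        by_contra hcon
        push Not at hcon
        nlinarith
    | insert i S hi ih =>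
      intro θ h1 h2 h3
      have hsum : ∀ u : ℝ, ∑ j, Function.update θ i u j = ∑ j, θ j + (u - θ i) := by
        intro u
        rw [← Finset.add_sum_erase _ _ (Finset.mem_univ i), ← Finset.add_sum_erase _ θ (Finset.mem_univ i),
          Function.update_self]
        have : ∑ x ∈ Finset.univ.erase i, Function.update θ i u x = ∑ x ∈ Finset.univ.erase i, θ x :=
          Finset.sum_congr rfl fun j hj => by rw [Function.update_of_ne (Finset.ne_of_mem_erase hj)]
        rw [this]; ring
      have hD : Dense (Set.range fun q : ℚ => b * (q : ℝ)) := by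
        have h4 : DenseRange (fun q : ℚ => (q : ℝ)) := Rat.denseRange_cast
        have h5 : Function.Surjective (fun x : ℝ => b * x) := fun y => ⟨y / b, by field_simp⟩
        exact h5.denseRange.comp h4 (continuous_const.mul continuous_id)
      have hcu : Continuous fun u : ℝ => Function.update θ i u := continuous_const.update i continuous_id
      have h4 := conv1 (μ := fun T => (μ T : Measure (Fin n → ℝ))) (f := fun y => lf (Function.update θ i 0) y)
        (g := fun y : Fin n → ℝ => y i)
        (Φ := fun u => Real.exp (lf (Function.update θ i u) m + qf C (Function.update θ i u) / 2))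
        (A := 0) (B := b - (∑ j, θ j - θ i)) (s := θ i) (D := Set.range fun q : ℚ => b * (q : ℝ))
        (lf_cont _).measurable (measurable_pi_apply i)
        (Real.continuous_exp.comp (((lf_cont' m).comp hcu).add (((qf_cont C).comp hcu).div_const 2))) hD (h1 i) (by linarith)
        (by
          rintro _ ⟨q, rfl⟩ h5 h6
          have h7 := ih (Function.update θ i (b * (q : ℝ))) (fun j => by
            rcases eq_or_ne j i with h | h
            · rw [h, Function.update_self]; exact h5
            · rw [Function.update_of_ne h]; exact h1 j) (by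
              rw [hsum]; linarith) (fun j hj => by
              rcases eq_or_ne j i with h | h
              · exact ⟨q, by rw [h, Function.update_self]⟩
              · rw [Function.update_of_ne h]
                exact h3 j (by simp [h, hj]))
          unfold Lap at h7
          simp_rw [lf_update θ i (b * (q : ℝ))] at h7 ⊢
          exact h7)
      unfold Lap
      have e5 : ∀ y : Fin n → ℝ, lf θ y = lf (Function.update θ i 0) y + θ i * y i := by
        intro y
        have := lf_update θ i (θ i) y
        rwa [Function.update_eq_self] at this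
      have h5 : Function.update θ i (θ i) = θ := Function.update_eq_self _ _
      have e6 : ∀ y : Fin n → ℝ, Real.exp (lf (Function.update θ i 0) y + θ i * y i) = Real.exp (lf θ y) :=
        fun y => by rw [e5]
      obtain ⟨h6, h7⟩ := h4
      simp_rw [e6] at h6 h7
      rw [h5] at h7
      exact ⟨h6, h7⟩
  intro θ h1 h2
  exact key Finset.univ θ h1 h2 fun j hj => absurd (Finset.mem_univ j) hj

end Pool.Agent.X111.LD
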