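import Pool.Agent.Y753.NL.Cur

set_option autoImplicit false

/-! The theorem of Curtiss with moment generating functions near zero only. -/

namespace Pool.Agent.X111.LD

open MeasureTheory Filter Topology ProbabilityTheory
open Pool.Agent.Y753.NL

/-- two probability measures on the line with the same moment generating function near zero are equal -/
theorem ext_mgf {ρ ν : Measure ℝ} [IsProbabilityMeasure ρ] [IsProbabilityMeasure ν]
    (h1 : ∀ s : ℝ, |s| < 1 → Integrable (fun x => Real.exp (s * x)) ρ)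
    (h2 : ∀ s : ℝ, |s| < 1 → Integrable (fun x => Real.exp (s * x)) ν)
    (h : ∀ s : ℝ, |s| < 1 → ∫ x, Real.exp (s * x) ∂ρ = ∫ x, Real.exp (s * x) ∂ν) : ρ = ν := by
  have sub : ∀ (m : Measure ℝ), (∀ s : ℝ, |s| < 1 → Integrable (fun x => Real.exp (s * x)) m) →
      {z : ℂ | z.re ∈ Set.Ioo (-1 : ℝ) 1} ⊆ {z | z.re ∈ interior (integrableExpSet id m)} := by
    intro m hm z hz
    refine interior_maximal (s := integrableExpSet id m) (t := Set.Ioo (-1 : ℝ) 1) ?_ isOpen_Ioo hz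
    intro s hs
    exact hm s (abs_lt.mpr ⟨hs.1, hs.2⟩)
  have a1 : AnalyticOnNhd ℂ (complexMGF id ρ) {z : ℂ | z.re ∈ Set.Ioo (-1 : ℝ) 1} :=
    analyticOnNhd_complexMGF.mono (sub ρ h1)
  have a2 : AnalyticOnNhd ℂ (complexMGF id ν) {z : ℂ | z.re ∈ Set.Ioo (-1 : ℝ) 1} :=
    analyticOnNhd_complexMGF.mono (sub ν h2)
  have hpc : IsPreconnected {z : ℂ | z.re ∈ Set.Ioo (-1 : ℝ) 1} := by
    have hc : Convex ℝ {z : ℂ | z.re ∈ Set.Ioo (-1 : ℝ) 1} :=
      (convex_Ioo (-1 : ℝ) 1).linear_preimage Complex.reLm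
    exact hc.isPreconnected
  have heq : Set.EqOn (complexMGF id ρ) (complexMGF id ν) {z : ℂ | z.re ∈ Set.Ioo (-1 : ℝ) 1} := by
    refine AnalyticOnNhd.eqOn_of_preconnected_of_frequently_eq a1 a2 hpc (z₀ := ((0 : ℝ) : ℂ)) (by simp) ?_
    have h_real : ∃ᶠ (x : ℝ) in 𝓝[≠] 0, complexMGF id ρ x = complexMGF id ν x := by
      refine Eventually.frequently ?_
      have h3 : ∀ᶠ x : ℝ in 𝓝[≠] 0, |x| < 1 := by
        refine eventually_nhdsWithin_of_eventually_nhds ?_
        have : Tendsto (fun x : ℝ => |x|) (𝓝 0) (𝓝 |0|) := continuous_abs.tendsto 0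
        rw [abs_zero] at this
        exact this.eventually (gt_mem_nhds one_pos)
      filter_upwards [h3] with x hx
      rw [complexMGF_ofReal, complexMGF_ofReal]
      congr 1
      exact h x hx
    rw [frequently_iff_seq_forall] at h_real ⊢
    obtain ⟨xs, hx_tendsto, hx_eq⟩ := h_real
    refine ⟨fun n ↦ xs n, ?_, fun n ↦ ?_⟩
    · rw [tendsto_nhdsWithin_iff] at hx_tendsto ⊢
      constructor
      · rw [tendsto_ofReal_iff]
        exact hx_tendsto.1
      · simpa using hx_tendsto.2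
    · simp [hx_eq]
  refine Measure.ext_of_charFun ?_
  funext t
  have h4 := heq (x := (t : ℂ) * Complex.I) (by simp)
  rw [complexMGF_id_mul_I, complexMGF_id_mul_I] at h4
  exact h4

/-- the theorem of Curtiss, local form -/
theorem cur4 {ι : Type*} {l : Filter ι} {μ : ι → ProbabilityMeasure ℝ} {ν : ProbabilityMeasure ℝ}
    (hi : ∀ s : ℝ, |s| < 4 → ∀ᶠ i in l, Integrable (fun x => Real.exp (s * x)) (μ i : Measure ℝ))
    (hν : ∀ s : ℝ, |s| < 4 → Integrable (fun x => Real.exp (s * x)) (ν : Measure ℝ))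
    (h : ∀ s : ℝ, |s| < 4 → Tendsto (fun i => ∫ x, Real.exp (s * x) ∂(μ i : Measure ℝ)) l
      (𝓝 (∫ x, Real.exp (s * x) ∂(ν : Measure ℝ)))) :
    Tendsto μ l (𝓝 ν) := by
  rw [tendsto_iff_ultrafilter]
  intro g hg
  obtain ⟨m, hm⟩ : ∃ m : ℝ → ℝ, ∀ s, m s = ∫ x, Real.exp (s * x) ∂(ν : Measure ℝ) := ⟨_, fun _ => rfl⟩
  simp_rw [← hm] at h
  have hb : ∀ s : ℝ, |s| < 4 → ∀ᶠ i in (g : Filter ι), ∫ x, Real.exp (s * x) ∂(μ i : Measure ℝ) ≤ m s + 1 :=
    fun s hs => hg ((h s hs).eventually (ge_mem_nhds (by linarith)))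
  have a1 : |(1:ℝ)| < 4 := by norm_num
  have a1' : |(-1:ℝ)| < 4 := by norm_num
  have a2 : ∀ s : ℝ, |s| < 2 → |2 * s| < 4 := fun s hs => by
    rw [abs_mul, abs_of_pos (by norm_num : (0:ℝ) < 2)]; linarith
  have a3 : ∀ s : ℝ, |s| < 2 → |s| < 4 := fun s hs => by linarith
  set C := max (m 1 + 1) (m (-1) + 1) with hC
  set S : Set (ProbabilityMeasure ℝ) := {μ : ProbabilityMeasure ℝ | Integrable (fun x => Real.exp (1 * x)) (μ : Measure ℝ) ∧
      Integrable (fun x => Real.exp ((-1) * x)) (μ : Measure ℝ) ∧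
      ∫ x, Real.exp (1 * x) ∂(μ : Measure ℝ) ≤ C ∧ ∫ x, Real.exp ((-1) * x) ∂(μ : Measure ℝ) ≤ C} with hS
  have hcomp : IsCompact (closure S) := isCompact_closure_of_isTightMeasureSet (tight_exp C)
  have hmem : ∀ᶠ i in (g : Filter ι), μ i ∈ S := by
    filter_upwards [hg (hi 1 a1), hg (hi (-1) a1'), hb 1 a1, hb (-1) a1'] with i a1 a2 a3 a4
    exact ⟨a1, a2, a3.trans (le_max_left _ _), a4.trans (le_max_right _ _)⟩
  obtain ⟨ρ, -, hρ⟩ := isCompact_iff_ultrafilter_le_nhds.mp hcomp (g.map μ) (by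
    rw [Ultrafilter.coe_map, le_principal_iff, mem_map]
    filter_upwards [hmem] with i hi
    exact subset_closure hi)
  have hT : Tendsto μ g (𝓝 ρ) := hρ
  have hF := ProbabilityMeasure.tendsto_iff_forall_integral_tendsto.mp hT
  have key : ∀ s : ℝ, |s| < 2 → ∀ R : ℝ, ∀ hR : 0 < R,
      |∫ x, te s R hR.le x ∂(ρ : Measure ℝ) - m s| ≤ (m (2 * s) + 1) / R := by
    intro s hs R hR
    have h1 := (hF (te s R hR.le)).sub ((h s (a3 s hs)).mono_left hg)
    refine le_of_tendsto h1.abs ?_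
    filter_upwards [hg (hi s (a3 s hs)), hg (hi (2 * s) (a2 s hs)), hb (2 * s) (a2 s hs)] with i a1 a2 a3
    refine (te_near hR a1 a2).trans ?_
    exact div_le_div_of_nonneg_right a3 hR.le
  have hm0 : ∀ s, 0 ≤ m s := fun s => by rw [hm]; exact integral_nonneg fun x => (Real.exp_pos _).le
  have hint : ∀ s : ℝ, |s| < 2 → Integrable (fun x => Real.exp (s * x)) (ρ : Measure ℝ) := by
    intro s hs
    refine te_lim (C := m s + (m (2 * s) + 1)) fun R hR => ?_
    rcases le_or_gt 1 R with h1 | h1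
    · have h2 := (abs_le.mp (key s hs R hR)).2
      have h3 : (m (2 * s) + 1) / R ≤ m (2 * s) + 1 := div_le_self (by have := hm0 (2 * s); linarith) h1
      linarith
    · have h2 := (abs_le.mp (key s hs 1 one_pos)).2
      have h4 : ∫ x, te s R hR.le x ∂(ρ : Measure ℝ) ≤ ∫ x, te s 1 zero_le_one x ∂(ρ : Measure ℝ) := by
        refine integral_mono ((te s R hR.le).integrable _) ((te s 1 zero_le_one).integrable _) fun x => ?_
        show te s R hR.le x ≤ te s 1 zero_le_one x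
        rw [te_apply, te_apply]
        exact min_le_min le_rfl h1.le
      rw [div_one] at h2
      linarith
  have heq : ∀ s : ℝ, |s| < 1 → ∫ x, Real.exp (s * x) ∂(ρ : Measure ℝ) = m s := by
    intro s hs
    have hs2 : |s| < 2 := by linarith
    have h2s : |2 * s| < 2 := by
      rw [abs_mul, abs_of_pos (by norm_num : (0:ℝ) < 2)]; linarith
    have h1 : ∀ R : ℝ, 0 < R → |∫ x, Real.exp (s * x) ∂(ρ : Measure ℝ) - m s| ≤
        ((∫ x, Real.exp (2 * s * x) ∂(ρ : Measure ℝ)) + (m (2 * s) + 1)) / R := by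
      intro R hR
      have h2 := te_near hR (hint s hs2) (hint (2 * s) h2s)
      have h3 := key s hs2 R hR
      rw [abs_sub_comm] at h2
      have h4 := abs_add_le (∫ x, Real.exp (s * x) ∂(ρ : Measure ℝ) - ∫ x, te s R hR.le x ∂(ρ : Measure ℝ))
        (∫ x, te s R hR.le x ∂(ρ : Measure ℝ) - m s)
      rw [sub_add_sub_cancel] at h4
      rw [add_div]
      linarith
    have h5 : Tendsto (fun R : ℝ => ((∫ x, Real.exp (2 * s * x) ∂(ρ : Measure ℝ)) + (m (2 * s) + 1)) / R) atTop (𝓝 0) :=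
      tendsto_const_nhds.div_atTop tendsto_id
    have h6 : |∫ x, Real.exp (s * x) ∂(ρ : Measure ℝ) - m s| ≤ 0 :=
      ge_of_tendsto h5 ((eventually_gt_atTop 0).mono fun R hR => h1 R hR)
    exact sub_eq_zero.mp (abs_eq_zero.mp (le_antisymm h6 (abs_nonneg _)))
  have hfin : (ρ : Measure ℝ) = (ν : Measure ℝ) := by
    refine ext_mgf (fun s hs => hint s (by linarith)) (fun s hs => hν s (by linarith)) fun s hs => ?_
    rw [heq s hs, hm]
  have hρν : ρ = ν := Subtype.ext hfin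
  rw [← hρν]
  exact hT

end Pool.Agent.X111.LD
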