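import Pool.Agent.X111.LD.Land

set_option autoImplicit false

/-! The statement S_LAND. -/

namespace Pool.Agent.X111.LD

open MeasureTheory Filter Topology ProbabilityTheory
open Pool.Agent.Y753.SHL

variable {n : ℕ}

lemma bf_self (C : Fin n → Fin n → ℝ) (c : Fin n → ℝ) : bf C c c = qf C c := rfl

lemma bf_neg (C : Fin n → Fin n → ℝ) (c d : Fin n → ℝ) : bf C c (-d) = -bf C c d := by
  unfold bf
  rw [← Finset.sum_neg_distrib]
  refine Finset.sum_congr rfl fun i _ => ?_
  rw [← Finset.sum_neg_distrib]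
  refine Finset.sum_congr rfl fun j _ => ?_
  rw [Pi.neg_apply]; ring

lemma lf_neg (c y : Fin n → ℝ) : lf (-c) y = -lf c y := by
  have h := lf_smul (-1) c y
  rw [neg_one_smul] at h
  rw [h]; ring

lemma qf_neg (C : Fin n → Fin n → ℝ) (c : Fin n → ℝ) : qf C (-c) = qf C c := by
  have h := qf_smul C (-1) c
  rw [neg_one_smul] at h
  rw [h]; ring

/-- the exponential moments of a normal law -/
lemma nor_exp {m : Fin n → ℝ} {C : Fin n → Fin n → ℝ} {γ : ProbabilityMeasure (Fin n → ℝ)} (hγ : Nor m C γ)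
    (c : Fin n → ℝ) :
    Integrable (fun y => Real.exp (lf c y)) (γ : Measure (Fin n → ℝ)) ∧
    ∫ y, Real.exp (lf c y) ∂(γ : Measure (Fin n → ℝ)) = Real.exp (lf c m + qf C c / 2) := by
  obtain ⟨h1, h2⟩ := hγ c
  have hc : Continuous (lf c) := lf_cont c
  have h3 : Integrable (fun x : ℝ => Real.exp (1 * x)) ((γ : Measure (Fin n → ℝ)).map (lf c)) := by
    rw [h2]
    exact integrable_exp_mul_gaussianReal 1
  constructor
  · rw [integrable_map_measure (by fun_prop) hc.measurable.aemeasurable] at h3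
    refine h3.congr (Eventually.of_forall fun y => ?_)
    show Real.exp (1 * lf c y) = Real.exp (lf c y)
    rw [one_mul]
  · have h5 := congrFun (mgf_fun_id_gaussianReal (μ := lf c m) (v := (qf C c).toNNReal)) 1
    unfold mgf at h5
    rw [← h2, integral_map hc.measurable.aemeasurable (by fun_prop)] at h5
    rw [Real.coe_toNNReal' (qf C c), max_eq_left h1] at h5
    have e : ∀ y : Fin n → ℝ, Real.exp (1 * lf c y) = Real.exp (lf c y) := fun y => by rw [one_mul]
    simp_rw [e] at h5
    rw [h5]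
    congr 1
    ring

/-- statement S_LAND -/
theorem land : S_LAND := by
  classical
  intro n μ m C b hb hC hL
  obtain ⟨d, hd⟩ : ∃ d : Fin n → ℝ, d = fun _ => b / (2 * (n + 1)) := ⟨_, rfl⟩
  have hd0 : ∀ j, 0 < d j := fun j => by rw [hd]; positivity
  have hds : ∑ j, d j < b := by
    rw [hd, Finset.sum_const, Finset.card_univ, Fintype.card_fin, nsmul_eq_mul]
    have h1 : (n : ℝ) * (b / (2 * (n + 1))) = b * (n / (2 * (n + 1))) := by ring
    have h2 : (n : ℝ) / (2 * (n + 1)) < 1 := by
      rw [div_lt_one (by positivity)]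
      have : (0:ℝ) ≤ n := Nat.cast_nonneg n
      linarith
    rw [h1]
    nlinarith
  have hL' : ∀ (x : ℕ → ℝ), Tendsto x atTop atTop → ∀ θ : Fin n → ℝ, (∀ j, 0 < θ j) → ∑ j, θ j < b →
      LapS (fun k => μ (x k)) m C θ :=
    fun x hx θ h1 h2 => ⟨hx.eventually (hL θ h1 h2).1, (hL θ h1 h2).2.comp hx⟩
  have hq : ∀ c, 0 ≤ qf C c := fun c => psd hC (hL' (fun k => (k : ℝ)) tendsto_natCast_atTop_atTop) hd0 hds c
  obtain ⟨γ, hγ, hγc⟩ := gau_ex (mC m C d) hC hq
  have hi := (nor_exp hγ (-d)).1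
  simp_rw [lf_neg] at hi
  have hm : ∫ y, Real.exp (-lf d y) ∂(γ : Measure (Fin n → ℝ)) = (Real.exp (lf d m + qf C d / 2))⁻¹ := by
    have h := (nor_exp hγ (-d)).2
    simp_rw [lf_neg] at h
    rw [h, ← Real.exp_neg, qf_neg, lf_mC, bf_self]
    congr 1
    ring
  have hprob : IsProbabilityMeasure ((γ : Measure (Fin n → ℝ)).tilted fun y => -lf d y) :=
    isProbabilityMeasure_tilted hi
  obtain ⟨ρ, hρ⟩ : ∃ ρ : ProbabilityMeasure (Fin n → ℝ),
      (ρ : Measure (Fin n → ℝ)) = (γ : Measure (Fin n → ℝ)).tilted fun y => -lf d y := ⟨⟨_, hprob⟩, rfl⟩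
  have hρe : ∀ c : Fin n → ℝ, Integrable (fun y => Real.exp (lf c y)) (ρ : Measure (Fin n → ℝ)) ∧
      ∫ y, Real.exp (lf c y) ∂(ρ : Measure (Fin n → ℝ)) = Real.exp (lf c m + qf C c / 2) := by
    intro c
    have h := nor_exp hγ (-d + c)
    have e3 : ∀ y : Fin n → ℝ, Real.exp (lf (-d + c) y) = Real.exp (((fun y => -lf d y) + fun y => lf c y) y) := by
      intro y
      rw [Pi.add_apply, lf_add, lf_neg]
    constructor
    · rw [hρ]
      refine (integrable_tilted_iff hi (fun y : Fin n → ℝ => Real.exp (lf c y))).mpr ?_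
      refine h.1.congr (Eventually.of_forall fun y => ?_)
      show Real.exp (lf (-d + c) y) = Real.exp (-lf d y) • Real.exp (lf c y)
      rw [smul_eq_mul, ← Real.exp_add, lf_add, lf_neg]
    · rw [hρ, integral_exp_tilted]
      have h4 := h.2
      simp_rw [e3] at h4
      rw [h4, hm, ← Real.exp_neg, ← Real.exp_sub]
      congr 1
      rw [lf_mC, qf_add hC, lf_add, lf_neg, bf_symm hC (-d + c) d, qf_neg]
      have e5 : bf C d (-d + c) = -qf C d + bf C d c := by
        unfold bf qf
        rw [← Finset.sum_neg_distrib, ← Finset.sum_add_distrib]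
        refine Finset.sum_congr rfl fun i _ => ?_
        rw [← Finset.sum_neg_distrib, ← Finset.sum_add_distrib]
        refine Finset.sum_congr rfl fun j _ => ?_
        rw [Pi.add_apply, Pi.neg_apply]; ring
      have e6 : bf C (-d) c = -bf C d c := by
        rw [bf_symm hC, bf_neg, bf_symm hC]
      rw [e5, e6]
      ring
  have hρn : Nor m C ρ := by
    intro c
    refine ⟨hq c, ?_⟩
    have hc : Continuous (lf c) := lf_cont c
    haveI : IsProbabilityMeasure ((ρ : Measure (Fin n → ℝ)).map (lf c)) :=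
      Measure.isProbabilityMeasure_map hc.measurable.aemeasurable
    have e1 : ∀ (s : ℝ) (y : Fin n → ℝ), Real.exp (lf (s • c) y) = Real.exp (s * lf c y) := fun s y => by rw [lf_smul]
    refine ext_mgf (fun s _ => ?_) (fun s _ => integrable_exp_mul_gaussianReal s) fun s _ => ?_
    · rw [integrable_map_measure (by fun_prop) hc.measurable.aemeasurable]
      exact (hρe (s • c)).1.congr (Eventually.of_forall fun y => e1 s y)
    · have h5 := congrFun (mgf_fun_id_gaussianReal (μ := lf c m) (v := (qf C c).toNNReal)) s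
      unfold mgf at h5
      rw [h5, integral_map hc.measurable.aemeasurable (by fun_prop), Real.coe_toNNReal' (qf C c), max_eq_left (hq c)]
      have h6 := (hρe (s • c)).2
      simp_rw [e1] at h6
      rw [h6, lf_smul, qf_smul]
      congr 1
      ring
  refine ⟨ρ, hρn, tendsto_of_seq_tendsto fun x hx => ?_⟩
  set ν : ℕ → ProbabilityMeasure (Fin n → ℝ) := fun k =>
    if h : Integrable (fun y => Real.exp (lf d y)) (μ (x k) : Measure (Fin n → ℝ)) then
      ⟨(μ (x k) : Measure (Fin n → ℝ)).tilted fun y => lf d y, isProbabilityMeasure_tilted h⟩ else μ (x k) with hνd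
  have hν : ∀ᶠ k in atTop, (ν k : Measure (Fin n → ℝ)) = ((μ (x k)) : Measure (Fin n → ℝ)).tilted fun y => lf d y := by
    filter_upwards [(hL' x hx d hd0 hds).1] with k hk
    have : ν k = ⟨(μ (x k) : Measure (Fin n → ℝ)).tilted fun y => lf d y, isProbabilityMeasure_tilted hk⟩ := dif_pos hk
    rw [this]
    rfl
  have h1 := hγc ν fun c => tilt_conv hC (hL' x hx) hd0 hds hq hν c
  exact untilt (μ := fun k => μ (x k)) (hL' x hx d hd0 hds) hν h1 hm hρ

end Pool.Agent.X111.LD
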