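import Pool.Agent.X111.LD.Cur
import Pool.Agent.Y753.SHR.Stm3

set_option autoImplicit false

/-! Normal laws on `ℝ^n`. -/

namespace Pool.Agent.X111.LD

open MeasureTheory Filter Topology ProbabilityTheory
open Pool.Agent.Y753.SHL
open scoped RealInnerProductSpace

variable {n : ℕ}

lemma lf_add (c d y : Fin n → ℝ) : lf (c + d) y = lf c y + lf d y := by
  unfold lf
  rw [← Finset.sum_add_distrib]
  exact Finset.sum_congr rfl fun i _ => by rw [Pi.add_apply]; ring

lemma lf_smul (a : ℝ) (c y : Fin n → ℝ) : lf (a • c) y = a * lf c y := by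
  unfold lf
  rw [Finset.mul_sum]
  exact Finset.sum_congr rfl fun i _ => by rw [Pi.smul_apply, smul_eq_mul]; ring

lemma lf_cont (c : Fin n → ℝ) : Continuous fun y : Fin n → ℝ => lf c y := by
  unfold lf
  fun_prop

/-- the bilinear form -/
noncomputable def bf (C : Fin n → Fin n → ℝ) (c d : Fin n → ℝ) : ℝ := ∑ i, ∑ j, c i * d j * C i j

lemma bf_symm {C : Fin n → Fin n → ℝ} (hC : ∀ i j, C i j = C j i) (c d : Fin n → ℝ) : bf C c d = bf C d c := by
  unfold bf
  rw [Finset.sum_comm]
  refine Finset.sum_congr rfl fun i _ => Finset.sum_congr rfl fun j _ => ?_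
  rw [hC]; ring

lemma qf_add {C : Fin n → Fin n → ℝ} (hC : ∀ i j, C i j = C j i) (c d : Fin n → ℝ) :
    qf C (c + d) = qf C c + 2 * bf C c d + qf C d := by
  have h := bf_symm hC c d
  have e : qf C (c + d) = qf C c + bf C c d + (bf C d c + qf C d) := by
    unfold qf bf
    simp_rw [← Finset.sum_add_distrib]
    refine Finset.sum_congr rfl fun i _ => Finset.sum_congr rfl fun j _ => ?_
    rw [Pi.add_apply, Pi.add_apply]; ring
  rw [e, ← h]; ring

lemma qf_smul (C : Fin n → Fin n → ℝ) (a : ℝ) (c : Fin n → ℝ) : qf C (a • c) = a ^ 2 * qf C c := by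
  unfold qf
  rw [Finset.mul_sum]
  refine Finset.sum_congr rfl fun i _ => ?_
  rw [Finset.mul_sum]
  refine Finset.sum_congr rfl fun j _ => ?_
  rw [Pi.smul_apply, Pi.smul_apply, smul_eq_mul, smul_eq_mul]; ring

lemma bf_smul (C : Fin n → Fin n → ℝ) (a : ℝ) (c d : Fin n → ℝ) : bf C (a • c) d = a * bf C c d := by
  unfold bf
  rw [Finset.mul_sum]
  refine Finset.sum_congr rfl fun i _ => ?_
  rw [Finset.mul_sum]
  refine Finset.sum_congr rfl fun j _ => ?_
  rw [Pi.smul_apply, smul_eq_mul]; ring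

/-- the shifted mean -/
noncomputable def mC (m : Fin n → ℝ) (C : Fin n → Fin n → ℝ) (d : Fin n → ℝ) (i : Fin n) : ℝ := m i + ∑ j, C i j * d j

lemma lf_mC (m : Fin n → ℝ) (C : Fin n → Fin n → ℝ) (c d : Fin n → ℝ) : lf c (mC m C d) = lf c m + bf C c d := by
  unfold lf mC bf
  rw [← Finset.sum_add_distrib]
  refine Finset.sum_congr rfl fun i _ => ?_
  rw [mul_add, Finset.mul_sum]
  congr 1
  exact Finset.sum_congr rfl fun j _ => by ring

/-- the exponent -/
lemma expo {m : Fin n → ℝ} {C : Fin n → Fin n → ℝ} (hC : ∀ i j, C i j = C j i) (c d : Fin n → ℝ) :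
    lf (d + c) m + qf C (d + c) / 2 - (lf d m + qf C d / 2) = lf c (mC m C d) + qf C c / 2 := by
  rw [lf_add, qf_add hC, lf_mC, bf_symm hC d c]; ring

/-- the normal law exists -/
theorem gau_ex (m : Fin n → ℝ) {C : Fin n → Fin n → ℝ} (hC : ∀ i j, C i j = C j i) (hq : ∀ c, 0 ≤ qf C c) :
    ∃ γ : ProbabilityMeasure (Fin n → ℝ), Nor m C γ ∧ ∀ μ : ℕ → ProbabilityMeasure (Fin n → ℝ),
      (∀ c : Fin n → ℝ, Tendsto (fun k => ∫ y, Complex.exp ((lf c y : ℝ) * Complex.I) ∂(μ k : Measure (Fin n → ℝ))) atTop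
        (𝓝 (Complex.exp ((lf c m : ℝ) * Complex.I - (qf C c : ℝ) / 2)))) → Tendsto μ atTop (𝓝 γ) := by
  classical
  obtain ⟨S, hS⟩ : ∃ S : Matrix (Fin n) (Fin n) ℝ, S = Matrix.of C := ⟨_, rfl⟩
  have hdot : ∀ c : Fin n → ℝ, dotProduct c (S.mulVec c) = qf C c := by
    intro c
    rw [hS]
    unfold dotProduct Matrix.mulVec qf dotProduct
    refine Finset.sum_congr rfl fun i _ => ?_
    rw [Finset.mul_sum]
    exact Finset.sum_congr rfl fun j _ => by
      show c i * (C i j * c j) = c i * c j * C i j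
      ring
  have hpsd : S.PosSemidef := by
    refine Matrix.PosSemidef.of_dotProduct_mulVec_nonneg ?_ ?_
    · ext i j
      rw [hS]
      simp [hC i j]
    · intro x
      have : star x = x := by ext i; simp
      rw [this, hdot]
      exact hq x
  set g : Measure (EuclideanSpace ℝ (Fin n)) := multivariateGaussian (WithLp.toLp 2 m) S with hg
  have hco : Continuous (fun x : EuclideanSpace ℝ (Fin n) => (WithLp.ofLp x : Fin n → ℝ)) := by fun_prop
  have hci : Continuous (fun y : Fin n → ℝ => (WithLp.toLp 2 y : EuclideanSpace ℝ (Fin n))) := by fun_prop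
  set G : ProbabilityMeasure (EuclideanSpace ℝ (Fin n)) := ⟨g, inferInstance⟩ with hG
  set γ : ProbabilityMeasure (Fin n → ℝ) := G.map hco.measurable.aemeasurable with hγ
  have hγm : (γ : Measure (Fin n → ℝ)) = g.map (fun x : EuclideanSpace ℝ (Fin n) => (WithLp.ofLp x : Fin n → ℝ)) := rfl
  have hin : ∀ (x c : EuclideanSpace ℝ (Fin n)), ⟪x, c⟫ = lf (WithLp.ofLp c) (WithLp.ofLp x) := by
    intro x c
    rw [PiLp.inner_apply]
    unfold lf
    refine Finset.sum_congr rfl fun i _ => ?_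
    simp [mul_comm]
  have hchar : ∀ c : EuclideanSpace ℝ (Fin n), charFun g c =
      Complex.exp ((lf (WithLp.ofLp c) m : ℝ) * Complex.I - (qf C (WithLp.ofLp c) : ℝ) / 2) := by
    intro c
    rw [hg, charFun_multivariateGaussian hpsd c, hdot]
    have h1 : ⟪c, WithLp.toLp 2 m⟫ = lf (WithLp.ofLp c) m := by
      rw [real_inner_comm, hin]
    rw [h1]
  refine ⟨γ, fun c => ⟨hq c, ?_⟩, fun μ hμ => ?_⟩
  · rw [hγm, Measure.map_map (lf_cont c).measurable hco.measurable]
    refine Measure.ext_of_charFun ?_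
    funext t
    rw [charFun_gaussianReal, charFun_apply_real, integral_map
      ((lf_cont c).measurable.comp hco.measurable).aemeasurable (by fun_prop)]
    have h1 := hchar (WithLp.toLp 2 (t • c))
    rw [charFun_apply] at h1
    have h2 : ∀ x : EuclideanSpace ℝ (Fin n), Complex.exp ((⟪x, WithLp.toLp 2 (t • c)⟫ : ℝ) * Complex.I) =
        Complex.exp ((t : ℂ) * (((fun y : Fin n → ℝ => lf c y) ∘ fun x : EuclideanSpace ℝ (Fin n) =>
          (WithLp.ofLp x : Fin n → ℝ)) x : ℝ) * Complex.I) := by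
      intro x
      rw [hin]
      show Complex.exp ((lf (t • c) (WithLp.ofLp x) : ℝ) * Complex.I) = Complex.exp ((t : ℂ) * (lf c (WithLp.ofLp x) : ℝ) * Complex.I)
      rw [lf_smul]
      push_cast
      ring_nf
    simp_rw [h2] at h1
    rw [h1]
    congr 1
    show ((lf (t • c) m : ℝ) : ℂ) * Complex.I - (qf C (t • c) : ℝ) / 2 = _
    rw [lf_smul, qf_smul, Real.coe_toNNReal' (qf C c), max_eq_left (hq c)]
    push_cast
    ring
  · have h1 : Tendsto (fun k => (μ k).map hci.measurable.aemeasurable) atTop (𝓝 G) := by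
      refine ProbabilityMeasure.tendsto_of_tendsto_charFun fun c => ?_
      have h2 := hμ (WithLp.ofLp c)
      rw [← hchar c] at h2
      refine h2.congr fun k => ?_
      rw [charFun_apply]
      show _ = ∫ x, Complex.exp ((⟪x, c⟫ : ℝ) * Complex.I) ∂((μ k : Measure (Fin n → ℝ)).map
        fun y : Fin n → ℝ => (WithLp.toLp 2 y : EuclideanSpace ℝ (Fin n)))
      rw [integral_map hci.measurable.aemeasurable (by fun_prop)]
      refine integral_congr_ae (Eventually.of_forall fun y => ?_)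
      show _ = Complex.exp ((⟪(WithLp.toLp 2 y : EuclideanSpace ℝ (Fin n)), c⟫ : ℝ) * Complex.I)
      rw [hin]
    have h2 := ProbabilityMeasure.tendsto_map_of_tendsto_of_continuous _ _ h1 hco
    refine h2.congr fun k => ?_
    apply Subtype.ext
    show ((μ k : Measure (Fin n → ℝ)).map fun y : Fin n → ℝ => (WithLp.toLp 2 y : EuclideanSpace ℝ (Fin n))).map
      (fun x : EuclideanSpace ℝ (Fin n) => (WithLp.ofLp x : Fin n → ℝ)) = (μ k : Measure (Fin n → ℝ))
    rw [Measure.map_map hco.measurable hci.measurable]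
    exact Measure.map_id

end Pool.Agent.X111.LD
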