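import Pool.Agent.X111.LD.Gau

set_option autoImplicit false

/-! Convergence of Laplace transforms in an open simplex with corner zero to those of a normal law. -/

namespace Pool.Agent.X111.LD

open MeasureTheory Filter Topology ProbabilityTheory
open Pool.Agent.Y753.SHL

variable {n : ℕ}

/-- Laplace transforms at `θ` along a sequence -/
def LapS (μ : ℕ → ProbabilityMeasure (Fin n → ℝ)) (m : Fin n → ℝ) (C : Fin n → Fin n → ℝ) (θ : Fin n → ℝ) : Prop :=
  (∀ᶠ k in atTop, Integrable (fun y => Real.exp (lf θ y)) (μ k : Measure (Fin n → ℝ))) ∧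
  Tendsto (fun k => ∫ y, Real.exp (lf θ y) ∂(μ k : Measure (Fin n → ℝ))) atTop (𝓝 (Real.exp (lf θ m + qf C θ / 2)))

/-- a neighbourhood of `d` in the direction `c` -/
lemma near_dir {b : ℝ} {d : Fin n → ℝ} (hd : ∀ j, 0 < d j) (hdb : ∑ j, d j < b) (c : Fin n → ℝ) :
    ∃ η : ℝ, 0 < η ∧ ∀ s : ℝ, |s| < 4 → (∀ j, 0 < (d + (s * η) • c) j) ∧ ∑ j, (d + (s * η) • c) j < b := by
  have h1 : ∀ j, ∀ᶠ x : ℝ in 𝓝 0, 0 < d j + x * c j := by
    intro j
    have : Tendsto (fun x : ℝ => d j + x * c j) (𝓝 0) (𝓝 (d j + 0 * c j)) :=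
      (continuous_const.add (continuous_id.mul continuous_const)).tendsto 0
    rw [zero_mul, add_zero] at this
    exact this.eventually (lt_mem_nhds (hd j))
  have h2 : ∀ᶠ x : ℝ in 𝓝 0, ∑ j, (d j + x * c j) < b := by
    have : Tendsto (fun x : ℝ => ∑ j, (d j + x * c j)) (𝓝 0) (𝓝 (∑ j, (d j + 0 * c j))) :=
      (continuous_finsetSum _ fun j _ => continuous_const.add (continuous_id.mul continuous_const)).tendsto 0
    simp_rw [zero_mul, add_zero] at this
    exact this.eventually (gt_mem_nhds hdb)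
  have h3 := (eventually_all.mpr h1).and h2
  obtain ⟨r, hr, h4⟩ := Metric.eventually_nhds_iff.mp h3
  refine ⟨r / 4, by positivity, fun s hs => ?_⟩
  have h5 := @h4 (s * (r / 4)) (by
    rw [Real.dist_eq, sub_zero, abs_mul, abs_of_pos (by positivity : 0 < r / 4)]
    nlinarith)
  exact ⟨h5.1, h5.2⟩

section
variable {μ : ℕ → ProbabilityMeasure (Fin n → ℝ)} {m : Fin n → ℝ} {C : Fin n → Fin n → ℝ} {b : ℝ}

/-- the covariance is nonnegative -/
theorem psd (hC : ∀ i j, C i j = C j i) (hL : ∀ θ : Fin n → ℝ, (∀ j, 0 < θ j) → ∑ j, θ j < b → LapS μ m C θ)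
    {d : Fin n → ℝ} (hd : ∀ j, 0 < d j) (hdb : ∑ j, d j < b) (c : Fin n → ℝ) : 0 ≤ qf C c := by
  obtain ⟨η, hη, hr⟩ := near_dir hd hdb c
  obtain ⟨p1, p2⟩ := hr 1 (by norm_num)
  obtain ⟨q1, q2⟩ := hr (-1) (by norm_num)
  obtain ⟨a1, a2⟩ := hL d hd hdb
  obtain ⟨b1, b2⟩ := hL _ p1 p2
  obtain ⟨c1, c2⟩ := hL _ q1 q2
  set B : ℝ := η * (lf c m + bf C c d) with hB
  have e1 : lf (d + (1 * η) • c) m + qf C (d + (1 * η) • c) / 2 = (lf d m + qf C d / 2) + (B + η ^ 2 * qf C c / 2) := by
    have h := expo (m := m) hC ((1 * η) • c) d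
    rw [lf_mC, lf_smul, bf_smul, qf_smul] at h
    rw [hB]; linarith
  have e2 : lf (d + (-1 * η) • c) m + qf C (d + (-1 * η) • c) / 2 = (lf d m + qf C d / 2) + (-B + η ^ 2 * qf C c / 2) := by
    have h := expo (m := m) hC ((-1 * η) • c) d
    rw [lf_mC, lf_smul, bf_smul, qf_smul] at h
    rw [hB]; linarith
  rw [e1] at b2
  rw [e2] at c2
  set A : ℝ := lf d m + qf C d / 2
  have h1 : 2 * Real.exp A ≤ Real.exp (-B) * Real.exp (A + (B + η ^ 2 * qf C c / 2)) +
      Real.exp B * Real.exp (A + (-B + η ^ 2 * qf C c / 2)) := by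
    refine le_of_tendsto_of_tendsto (a2.const_mul 2) ((b2.const_mul (Real.exp (-B))).add (c2.const_mul (Real.exp B))) ?_
    filter_upwards [a1, b1, c1] with k a1 b1 c1
    rw [← integral_const_mul, ← integral_const_mul, ← integral_const_mul,
      ← integral_add (b1.const_mul _) (c1.const_mul _)]
    refine integral_mono (a1.const_mul _) ((b1.const_mul _).add (c1.const_mul _)) fun y => ?_
    show 2 * Real.exp (lf d y) ≤ Real.exp (-B) * Real.exp (lf (d + (1 * η) • c) y) +
      Real.exp B * Real.exp (lf (d + (-1 * η) • c) y)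
    rw [lf_add, lf_add, lf_smul, lf_smul, ← Real.exp_add, ← Real.exp_add]
    have e3 : Real.exp (-B + (lf d y + 1 * η * lf c y)) = Real.exp (lf d y) * Real.exp (-B + η * lf c y) := by
      rw [← Real.exp_add]; ring_nf
    have e4 : Real.exp (B + (lf d y + -1 * η * lf c y)) = Real.exp (lf d y) * Real.exp (-(-B + η * lf c y)) := by
      rw [← Real.exp_add]; ring_nf
    rw [e3, e4, ← mul_add]
    have h5 : 2 ≤ Real.exp (-B + η * lf c y) + Real.exp (-(-B + η * lf c y)) := by
      have h6 := Real.add_one_le_exp (-B + η * lf c y)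
      have h7 := Real.add_one_le_exp (-(-B + η * lf c y))
      linarith
    have h6 := Real.exp_pos (lf d y)
    nlinarith
  have e5 : Real.exp (-B) * Real.exp (A + (B + η ^ 2 * qf C c / 2)) = Real.exp A * Real.exp (η ^ 2 * qf C c / 2) := by
    rw [← Real.exp_add, ← Real.exp_add]; ring_nf
  have e6 : Real.exp B * Real.exp (A + (-B + η ^ 2 * qf C c / 2)) = Real.exp A * Real.exp (η ^ 2 * qf C c / 2) := by
    rw [← Real.exp_add, ← Real.exp_add]; ring_nf
  rw [e5, e6] at h1
  have h2 : 1 ≤ Real.exp (η ^ 2 * qf C c / 2) := by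
    have := Real.exp_pos A
    by_contra hcon
    push Not at hcon
    nlinarith
  have h3 : 0 ≤ η ^ 2 * qf C c / 2 := Real.one_le_exp_iff.mp h2
  have h4 : 0 < η ^ 2 := by positivity
  by_contra hcon
  push Not at hcon
  nlinarith

/-- the tilted measures converge -/
theorem tilt_conv (hC : ∀ i j, C i j = C j i)
    (hL : ∀ θ : Fin n → ℝ, (∀ j, 0 < θ j) → ∑ j, θ j < b → LapS μ m C θ)
    {d : Fin n → ℝ} (hd : ∀ j, 0 < d j) (hdb : ∑ j, d j < b) (hq : ∀ c, 0 ≤ qf C c)
    {ν : ℕ → ProbabilityMeasure (Fin n → ℝ)}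
    (hν : ∀ᶠ k in atTop, (ν k : Measure (Fin n → ℝ)) = (μ k : Measure (Fin n → ℝ)).tilted fun y => lf d y)
    (c : Fin n → ℝ) :
    Tendsto (fun k => ∫ y, Complex.exp ((lf c y : ℝ) * Complex.I) ∂(ν k : Measure (Fin n → ℝ))) atTop
        (𝓝 (Complex.exp ((lf c (mC m C d) : ℝ) * Complex.I - (qf C c : ℝ) / 2))) := by
  obtain ⟨η, hη, hr⟩ := near_dir hd hdb c
  obtain ⟨a1, a2⟩ := hL d hd hdb
  have hcont : Continuous fun y : Fin n → ℝ => lf (η • c) y := lf_cont _
  set κ : ℕ → ProbabilityMeasure ℝ := fun k => (ν k).map hcont.measurable.aemeasurable with hκ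
  set G : ProbabilityMeasure ℝ := ⟨gaussianReal (lf (η • c) (mC m C d)) (qf C (η • c)).toNNReal, inferInstance⟩ with hG
  have hlim : Tendsto κ atTop (𝓝 G) := by
    refine cur4 (fun s hs => ?_) (fun s _ => integrable_exp_mul_gaussianReal s) fun s hs => ?_
    · obtain ⟨p1, p2⟩ := hr s hs
      obtain ⟨b1, b2⟩ := hL _ p1 p2
      filter_upwards [hν, a1, b1] with k h1 h2 h3
      show Integrable (fun x => Real.exp (s * x)) ((ν k : Measure (Fin n → ℝ)).map fun y : Fin n → ℝ => lf (η • c) y)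
      rw [integrable_map_measure (by fun_prop) hcont.measurable.aemeasurable, h1]
      show Integrable (fun y => Real.exp (s * lf (η • c) y)) ((μ k : Measure (Fin n → ℝ)).tilted fun y => lf d y)
      refine (integrable_tilted_iff h2 (fun y : Fin n → ℝ => Real.exp (s * lf (η • c) y))).mpr ?_
      refine h3.congr (Eventually.of_forall fun y => ?_)
      show Real.exp (lf (d + (s * η) • c) y) = Real.exp (lf d y) • Real.exp (s * lf (η • c) y)
      rw [smul_eq_mul, ← Real.exp_add, lf_add, lf_smul, lf_smul]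
      ring_nf
    · obtain ⟨p1, p2⟩ := hr s hs
      obtain ⟨b1, b2⟩ := hL _ p1 p2
      have h4 := b2.div a2 (Real.exp_pos _).ne'
      have e1 : ∫ x, Real.exp (s * x) ∂(G : Measure ℝ) =
          Real.exp (lf (d + (s * η) • c) m + qf C (d + (s * η) • c) / 2) / Real.exp (lf d m + qf C d / 2) := by
        have h5 := congrFun (mgf_fun_id_gaussianReal (μ := lf (η • c) (mC m C d)) (v := (qf C (η • c)).toNNReal)) s
        unfold mgf at h5
        rw [← Real.exp_sub, expo hC]
        show ∫ x, Real.exp (s * x) ∂(gaussianReal (lf (η • c) (mC m C d)) (qf C (η • c)).toNNReal) = _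
        rw [h5, Real.coe_toNNReal' (qf C (η • c)), max_eq_left (hq _), lf_smul, lf_smul, qf_smul, qf_smul]
        ring_nf
      rw [e1]
      refine h4.congr' ?_
      filter_upwards [hν, a1, b1] with k h1 h2 h3
      show _ = ∫ x, Real.exp (s * x) ∂((ν k : Measure (Fin n → ℝ)).map fun y : Fin n → ℝ => lf (η • c) y)
      rw [integral_map hcont.measurable.aemeasurable (by fun_prop), h1, integral_exp_tilted]
      have e3 : ∀ y : Fin n → ℝ, Real.exp (lf (d + (s * η) • c) y) =
          Real.exp (((fun y => lf d y) + fun y => s * lf (η • c) y) y) := by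
        intro y
        rw [Pi.add_apply, lf_add, lf_smul, lf_smul]
        ring_nf
      simp_rw [e3]
      rfl
  have h6 := ProbabilityMeasure.tendsto_iff_tendsto_charFun.mp hlim (1 / η)
  have e2 : charFun (G : Measure ℝ) (1 / η) = Complex.exp ((lf c (mC m C d) : ℝ) * Complex.I - (qf C c : ℝ) / 2) := by
    show charFun (gaussianReal (lf (η • c) (mC m C d)) (qf C (η • c)).toNNReal) (1 / η) = _
    rw [charFun_gaussianReal, Real.coe_toNNReal' (qf C (η • c)), max_eq_left (hq _), lf_smul, qf_smul]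
    have : (η : ℂ) ≠ 0 := by exact_mod_cast hη.ne'
    congr 1
    push_cast
    field_simp
  rw [e2] at h6
  refine h6.congr fun k => ?_
  rw [charFun_apply_real]
  show ∫ x, Complex.exp (((1 / η : ℝ) : ℂ) * x * Complex.I) ∂((ν k : Measure (Fin n → ℝ)).map fun y : Fin n → ℝ => lf (η • c) y) = _
  rw [integral_map hcont.measurable.aemeasurable (by fun_prop)]
  refine integral_congr_ae (Eventually.of_forall fun y => ?_)
  show Complex.exp (((1 / η : ℝ) : ℂ) * (lf (η • c) y : ℝ) * Complex.I) = Complex.exp ((lf c y : ℝ) * Complex.I)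
  rw [lf_smul]
  have : (η : ℂ) ≠ 0 := by exact_mod_cast hη.ne'
  congr 1
  push_cast
  field_simp

/-- the cut-off -/
noncomputable def cut (d : Fin n → ℝ) (R : ℝ) (y : Fin n → ℝ) : ℝ := min 1 (max 0 (R + 1 + lf d y))

lemma cut_nn (d : Fin n → ℝ) (R : ℝ) (y : Fin n → ℝ) : 0 ≤ cut d R y := le_min zero_le_one (le_max_left _ _)

lemma cut_le (d : Fin n → ℝ) (R : ℝ) (y : Fin n → ℝ) : cut d R y ≤ 1 := min_le_left _ _

lemma cut_cont (d : Fin n → ℝ) (R : ℝ) : Continuous (cut d R) := by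
  have := lf_cont d
  unfold cut
  fun_prop

lemma cut_exp (d : Fin n → ℝ) (R : ℝ) (y : Fin n → ℝ) : cut d R y * Real.exp (-lf d y) ≤ Real.exp (R + 1) := by
  rcases le_or_gt (R + 1 + lf d y) 0 with h | h
  · have : cut d R y = 0 := by
      unfold cut
      rw [max_eq_left h, min_eq_right zero_le_one]
    rw [this, zero_mul]; positivity
  · calc cut d R y * Real.exp (-lf d y) ≤ 1 * Real.exp (-lf d y) :=
        mul_le_mul_of_nonneg_right (cut_le _ _ _) (Real.exp_pos _).le
      _ ≤ Real.exp (R + 1) := by rw [one_mul]; exact Real.exp_le_exp.mpr (by linarith)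

lemma cut_lim (d : Fin n → ℝ) (y : Fin n → ℝ) : Tendsto (fun R : ℝ => cut d R y) atTop (𝓝 1) := by
  refine tendsto_const_nhds.congr' ?_
  filter_upwards [eventually_ge_atTop (-lf d y)] with R hR
  unfold cut
  rw [max_eq_right (by linarith), min_eq_left (by linarith)]

/-- the bounded function `F cut exp (-lf d)` -/
noncomputable def bc (d : Fin n → ℝ) (R : ℝ) (F : BoundedContinuousFunction (Fin n → ℝ) ℝ) :
    BoundedContinuousFunction (Fin n → ℝ) ℝ :=
  BoundedContinuousFunction.ofNormedAddCommGroup (fun y => F y * (cut d R y * Real.exp (-lf d y)))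
    (F.continuous.mul ((cut_cont d R).mul (Real.continuous_exp.comp (lf_cont d).neg))) (‖F‖ * Real.exp (R + 1)) (fun y => by
      rw [norm_mul]
      refine mul_le_mul (F.norm_coe_le_norm _) ?_ (norm_nonneg _) (norm_nonneg _)
      rw [Real.norm_of_nonneg (mul_nonneg (cut_nn _ _ _) (Real.exp_pos _).le)]
      exact cut_exp _ _ _)

/-- the measures converge -/
theorem untilt {d : Fin n → ℝ} (hL : LapS μ m C d)
    {ν : ℕ → ProbabilityMeasure (Fin n → ℝ)} {γ ρ : ProbabilityMeasure (Fin n → ℝ)}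
    (hν : ∀ᶠ k in atTop, (ν k : Measure (Fin n → ℝ)) = (μ k : Measure (Fin n → ℝ)).tilted fun y => lf d y)
    (hγ : Tendsto ν atTop (𝓝 γ))
    (hm : ∫ y, Real.exp (-lf d y) ∂(γ : Measure (Fin n → ℝ)) = (Real.exp (lf d m + qf C d / 2))⁻¹)
    (hρ : (ρ : Measure (Fin n → ℝ)) = (γ : Measure (Fin n → ℝ)).tilted fun y => -lf d y) :
    Tendsto μ atTop (𝓝 ρ) := by

  obtain ⟨a1, a2⟩ := hL
  set Z : ℝ := Real.exp (lf d m + qf C d / 2) with hZ
  have hZ0 : 0 < Z := Real.exp_pos _
  rw [ProbabilityMeasure.tendsto_iff_forall_integral_tendsto] at hγ ⊢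
  -- the truncated integrals
  have hR : ∀ (R : ℝ) (F : BoundedContinuousFunction (Fin n → ℝ) ℝ),
      Tendsto (fun k => ∫ y, F y * cut d R y ∂(μ k : Measure (Fin n → ℝ))) atTop
        (𝓝 (∫ y, F y * cut d R y ∂(ρ : Measure (Fin n → ℝ)))) := by
    intro R F
    have h1 := a2.mul (hγ (bc d R F))
    have e1 : Z * ∫ y, bc d R F y ∂(γ : Measure (Fin n → ℝ)) = ∫ y, F y * cut d R y ∂(ρ : Measure (Fin n → ℝ)) := by
      rw [hρ, integral_tilted, ← integral_const_mul]
      refine integral_congr_ae (Eventually.of_forall fun y => ?_)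
      show Z * (F y * (cut d R y * Real.exp (-lf d y))) = (Real.exp (-lf d y) / ∫ x, Real.exp (-lf d x) ∂(γ : Measure (Fin n → ℝ))) • (F y * cut d R y)
      rw [hm, smul_eq_mul]
      field_simp
    rw [e1] at h1
    refine h1.congr' ?_
    filter_upwards [hν, a1] with k h2 h3
    rw [h2, integral_tilted, ← integral_const_mul]
    refine integral_congr_ae (Eventually.of_forall fun y => ?_)
    show (∫ y, Real.exp (lf d y) ∂(μ k : Measure (Fin n → ℝ))) * ((Real.exp (lf d y) / ∫ x, Real.exp (lf d x) ∂(μ k : Measure (Fin n → ℝ))) •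
      (F y * (cut d R y * Real.exp (-lf d y)))) = F y * cut d R y
    have h4 : 0 < ∫ x, Real.exp (lf d x) ∂(μ k : Measure (Fin n → ℝ)) := integral_exp_pos h3
    have h5 : Real.exp (-lf d y) = (Real.exp (lf d y))⁻¹ := Real.exp_neg _
    have h6 := Real.exp_pos (lf d y)
    rw [smul_eq_mul, h5]
    field_simp
  have icut : ∀ (R : ℝ) (p : ProbabilityMeasure (Fin n → ℝ)), Integrable (cut d R) (p : Measure (Fin n → ℝ)) := by
    intro R p
    refine (integrable_const (1:ℝ)).mono' (cut_cont d R).aestronglyMeasurable (Eventually.of_forall fun y => ?_)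
    rw [Real.norm_of_nonneg (cut_nn _ _ _)]
    exact cut_le _ _ _
  -- the mass of the truncation
  have hmass : Tendsto (fun R : ℝ => ∫ y, cut d R y ∂(ρ : Measure (Fin n → ℝ))) atTop (𝓝 1) := by
    have h1 : Tendsto (fun R : ℝ => ∫ y, cut d R y ∂(ρ : Measure (Fin n → ℝ))) atTop
        (𝓝 (∫ _y, (1:ℝ) ∂(ρ : Measure (Fin n → ℝ)))) := by
      refine tendsto_integral_filter_of_dominated_convergence (fun _ => (1:ℝ)) ?_ ?_ (integrable_const _) ?_
      · exact Eventually.of_forall fun R => (cut_cont d R).aestronglyMeasurable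
      · refine Eventually.of_forall fun R => Eventually.of_forall fun y => ?_
        rw [Real.norm_of_nonneg (cut_nn _ _ _)]
        exact cut_le _ _ _
      · exact Eventually.of_forall fun y => cut_lim d y
    simpa using h1
  intro F
  rw [Metric.tendsto_nhds]
  intro ε hε
  have hB : 0 < 2 * (‖F‖ + 1) := by positivity
  obtain ⟨R, hR1⟩ := (hmass.eventually (lt_mem_nhds (show 1 - ε / (4 * (‖F‖ + 1)) < 1 by
    have : 0 < ε / (4 * (‖F‖ + 1)) := by positivity
    linarith))).exists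
  have hone := hR R (BoundedContinuousFunction.const _ (1:ℝ))
  simp only [BoundedContinuousFunction.const_apply, one_mul] at hone
  have hδ : 0 < ε / (4 * (‖F‖ + 1)) := by positivity
  have hF := hR R F
  rw [Metric.tendsto_nhds] at hF
  filter_upwards [hF (ε / 4) (by positivity), hone.eventually (lt_mem_nhds (show
    (∫ y, cut d R y ∂(ρ : Measure (Fin n → ℝ))) - 0 - ε / (4 * (‖F‖ + 1)) * 0 - (ε / (4 * (‖F‖ + 1)) -
      (1 - ∫ y, cut d R y ∂(ρ : Measure (Fin n → ℝ)))) < ∫ y, cut d R y ∂(ρ : Measure (Fin n → ℝ)) by linarith))] with k h1 h2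
  have h2' : 1 - ε / (4 * (‖F‖ + 1)) ≤ ∫ y, cut d R y ∂(μ k : Measure (Fin n → ℝ)) := by linarith
  -- truncation error for a probability measure with large mass on the truncation
  have err : ∀ p : ProbabilityMeasure (Fin n → ℝ), 1 - ε / (4 * (‖F‖ + 1)) ≤ ∫ y, cut d R y ∂(p : Measure (Fin n → ℝ)) →
      |(∫ y, F y ∂(p : Measure (Fin n → ℝ))) - ∫ y, F y * cut d R y ∂(p : Measure (Fin n → ℝ))| ≤ ε / 4 := by
    intro p hp
    have i1 : Integrable (fun y => F y) (p : Measure (Fin n → ℝ)) := F.integrable _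
    have i2 : Integrable (fun y => F y * cut d R y) (p : Measure (Fin n → ℝ)) := by
      refine i1.norm.mono' (F.continuous.mul (cut_cont d R)).aestronglyMeasurable (Eventually.of_forall fun y => ?_)
      rw [norm_mul, Real.norm_of_nonneg (cut_nn _ _ _)]
      exact mul_le_of_le_one_right (norm_nonneg _) (cut_le _ _ _)
    rw [← integral_sub i1 i2]
    have h3 : |∫ y, (F y - F y * cut d R y) ∂(p : Measure (Fin n → ℝ))| ≤
        ∫ y, ‖F‖ * (1 - cut d R y) ∂(p : Measure (Fin n → ℝ)) := by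
      refine (abs_integral_le_integral_abs).trans (integral_mono (i1.sub i2).abs
        (((integrable_const (1:ℝ)).sub (icut R p)).const_mul _) fun y => ?_)
      show |F y - F y * cut d R y| ≤ ‖F‖ * (1 - cut d R y)
      have e : F y - F y * cut d R y = F y * (1 - cut d R y) := by ring
      have h5 : 0 ≤ 1 - cut d R y := by linarith [cut_le d R y]
      rw [e, abs_mul, abs_of_nonneg h5]
      exact mul_le_mul_of_nonneg_right (F.norm_coe_le_norm _) h5
    refine h3.trans ?_
    have h6 : ∫ y, ‖F‖ * (1 - cut d R y) ∂(p : Measure (Fin n → ℝ)) = ‖F‖ * (1 - ∫ y, cut d R y ∂(p : Measure (Fin n → ℝ))) := by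
      rw [integral_const_mul, integral_sub (integrable_const _) (icut R p)]
      simp
    rw [h6]
    calc ‖F‖ * (1 - ∫ y, cut d R y ∂(p : Measure (Fin n → ℝ))) ≤ ‖F‖ * (ε / (4 * (‖F‖ + 1))) :=
          mul_le_mul_of_nonneg_left (by linarith) (norm_nonneg _)
      _ ≤ (‖F‖ + 1) * (ε / (4 * (‖F‖ + 1))) := mul_le_mul_of_nonneg_right (by linarith) (by positivity)
      _ = ε / 4 := by field_simp
  have e1 := err (μ k) h2'
  have e2 := err ρ (by linarith)
  rw [Real.dist_eq] at h1 ⊢
  have e3 := abs_le.mp e1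
  have e4 := abs_le.mp e2
  have e5 := abs_lt.mp h1
  rw [abs_lt]
  constructor <;> linarith [e3.1, e3.2, e4.1, e4.2, e5.1, e5.2]

end

end Pool.Agent.X111.LD
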